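import Pool.Agent.T9h36.N1.Spec
import Pool.Agent.T9h48.NK.TrCore

set_option autoImplicit false

/-! Slope 1: (ST) the step `MNT k N → MNT (k + 1) (N + 1)`. -/

open Set
open scoped RealInnerProductSpace

namespace Pool.Agent.T9h66.N1

open Pool.Agent.T9h98.DC Pool.Agent.T9h98.NK Pool.Agent.T9h44.NK Pool.Agent.T9h46.NK
open Pool.Agent.T9h36.N1

theorem few_mono {d : ℕ} {k k' : ℕ} (h : k ≤ k') {H : Subgroup (E d ≃ₗᵢ[ℝ] E d)} {P : Set (E d)}
    (hf : Few k H P) : Few k' H P := by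
  intro Φ
  obtain ⟨i, j, hij, h1⟩ := hf (fun i => Φ (Fin.castLE (by omega) i))
  exact ⟨_, _, fun h2 => hij (Fin.castLE_injective _ h2), h1⟩

theorem pt_one (hF : S_FACES) {d : ℕ} {P : Set (E d)} {H : Subgroup (E d ≃ₗᵢ[ℝ] E d)}
    (hP : FP P) (h : ∀ v w, Vx P v → Vx P w → ∃ g ∈ H, g v = w) : PT 1 H P := by
  intro Φ Ψ
  obtain ⟨-, -, -, -, -, -, h0, -, -, -⟩ := hF d P hP
  obtain ⟨v, hv⟩ := h0 (Φ.face 0) (Φ.isFace 0) (by have := Φ.dim 0; simpa using this)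
  obtain ⟨w, hw⟩ := h0 (Ψ.face 0) (Ψ.isFace 0) (by have := Ψ.dim 0; simpa using this)
  have hv1 : Vx P v := by
    have := Φ.isFace 0
    rw [hv] at this
    exact this
  have hw1 : Vx P w := by
    have := Ψ.isFace 0
    rw [hw] at this
    exact this
  obtain ⟨g, hg, e⟩ := h v w hv1 hw1
  refine ⟨g, hg, fun i => ?_⟩
  have hi : i = 0 := Subsingleton.elim _ _
  subst hi
  rw [hv, hw, image_singleton, e]

theorem adj_im {d : ℕ} {P : Set (E d)} (h : E d ≃ₗᵢ[ℝ] E d) (hP : h '' P = P) {v y : E d}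
    (ha : Adj P v y) : Adj P (h v) (h y) := by
  obtain ⟨h1, h2⟩ := ha
  refine ⟨fun h3 => h1 (h.injective h3), ?_⟩
  have h4 := Pool.Agent.T9h48.NK.face_image h hP h2
  have h5 : h '' segment ℝ v y = segment ℝ (h v) (h y) := by
    have h6 := image_segment ℝ (h.toLinearEquiv.toLinearMap.toAffineMap) v y
    exact h6
  rwa [h5] at h4

/-- two neighbours of `w` are equivalent under the stabilizer of `w` if the figure is transitive -/
theorem nb_trans (hNB : S_NB) {d : ℕ} {P : Set (E (d + 1))}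
    {H : Subgroup (E (d + 1) ≃ₗᵢ[ℝ] E (d + 1))} {w n : E (d + 1)} {ι : E d →ₗᵢ[ℝ] E (d + 1)}
    (hP : IsPolytope P) (hH : Pres H P) (hD : Dat P H w n ι)
    (ht : ∀ x x', Vx (fig w n ι P) x → Vx (fig w n ι P) x' → ∃ g ∈ figH H w ι, g x = x')
    (y y' : E (d + 1)) (hy : Adj P w y) (hy' : Adj P w y') : ∃ h ∈ H, h w = w ∧ h y = y' := by
  obtain ⟨hw, hs, hn, ho, hfix⟩ := hD
  obtain ⟨n1, -, n3, -⟩ := hNB d P w n ι hP hw hs hn ho
  obtain ⟨x, hx, hpx⟩ := n1 y hy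
  obtain ⟨x', hx', hpx'⟩ := n1 y' hy'
  obtain ⟨g, ⟨h, hh, hhw, hc⟩, e⟩ := ht x x' hx hx'
  refine ⟨h, hh, hhw, ?_⟩
  have ha : Adj P w (h y) := by
    have := adj_im h (hH h hh) hy
    rwa [hhw] at this
  have hp : Pr w n ι (h y) x' := by
    obtain ⟨t, ht0, et⟩ := hpx
    refine ⟨t, ht0, ?_⟩
    have h1 : h (y - w) = h y - w := by rw [map_sub, hhw]
    rw [← h1, et, map_smul, map_add, hfix h hh hhw, ← hc, e]
  exact (n3 (h y) y' x' x' ha hy' hp hpx').1 rfl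

theorem st (hF : S_FACES) (hVF : S_VF) (hI : S_INV) (hO : S_IOTA) (hNB : S_NB) (hCN : S_CONN)
    (hT : S_TR) (hS : S_STEP) (hLC : S_LOCC) (hN1 : S_N1) (hN4 : S_N4) (hN5 : S_N5)
    (hN6 : S_N6) : S_ST := by
  intro k N L N₀ N₁ hN hN0 hN1' hN9 hLL hML hMk hMN n hn P H hP hH hFew hNT
  obtain ⟨m, rfl⟩ : ∃ m, n = m + 1 := ⟨n - 1, by omega⟩
  have hdat : ∀ v, Vx P v → ∃ (a : E (m + 1 + 1)) (ι : E (m + 1) →ₗᵢ[ℝ] E (m + 1 + 1)),
      Dat P H v a ι := by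
    intro v hv
    obtain ⟨a, ha, hs, hfix⟩ := hI (m + 1 + 1) P v H hP.1 hv (exists_ne hP v) hH
    obtain ⟨ι, hι, -⟩ := hO (m + 1) a ha
    exact ⟨a, ι, hv, hs, ha, hι, hfix⟩
  obtain ⟨v₀, w₀, hv₀, hw₀, hne⟩ := hNT
  have hex : ∀ v, Vx P v → ∃ w, Vx P w ∧ ∀ h ∈ H, h v ≠ w := by
    intro v hv
    by_contra hcon
    push Not at hcon
    obtain ⟨g1, hg1, e1⟩ := hcon v₀ hv₀
    obtain ⟨g2, hg2, e2⟩ := hcon w₀ hw₀
    apply hne (g2 * g1⁻¹) (H.mul_mem hg2 (H.inv_mem hg1))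
    change g2 (g1.symm v₀) = w₀
    rw [← e1, g1.symm_apply_apply, e2]
  apply hS (m + 1) P H (by omega) hP hH
  intro w hw
  obtain ⟨n', ι', hDw⟩ := hdat w hw
  obtain ⟨-, hs, hn0, hι, hfix⟩ := id hDw
  refine ⟨n', ι', hs, hn0, hι, hfix, ?_⟩
  by_contra hbad
  obtain ⟨t1, -, -, -, t5⟩ := hT (m + 1) P H w n' ι' hP hH hw hs hn0 hι hfix
  have hfig := (hVF (m + 1) P w n' ι' hP hw hs hn0 hι).1
  have hfw : Few k (figH H w ι') (fig w n' ι' P) := t5 k hFew (hex w hw)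
  -- the figure at `w` is transitive
  have htr : ∀ x x', Vx (fig w n' ι' P) x → Vx (fig w n' ι' P) x' →
      ∃ g ∈ figH H w ι', g x = x' := by
    intro x x' hx hx'
    by_contra hcon
    push Not at hcon
    exact hbad (hMN m (by omega) _ _ hfig t1 hfw ⟨x, x', hx, hx', hcon⟩)
  have hpt1 : PT 1 (figH H w ι') (fig w n' ι' P) := pt_one hF hfig.1 htr
  have hnb := nb_trans hNB hP hH hDw htr
  -- a neighbour
  obtain ⟨v, hwv⟩ : ∃ v, Adj P w v := by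
    obtain ⟨-, -, -, -, h5, -⟩ := hF (m + 1) (fig w n' ι' P) hfig.1
    obtain ⟨-, x, hx⟩ := h5 (hfig.2.mono interior_subset)
    obtain ⟨y, hy, -⟩ := (hNB (m + 1) P w n' ι' hP hw hs hn0 hι).2.1 x hx
    exact ⟨y, hy⟩
  have hA := hF (m + 1 + 1) P hP.1
  obtain ⟨-, -, -, -, -, -, -, -, hA, -⟩ := hA
  have hv : Vx P v := (hA w v hwv).2.1
  -- it is not equivalent to `w`
  have hvw : ∀ h ∈ H, h v ≠ w := by
    intro h hh hvw
    obtain ⟨u, hu, hnu⟩ := hex w hw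
    have hconn := hCN (m + 1) P hP {x | ∃ g ∈ H, g w = x} ⟨w, ⟨1, H.one_mem, rfl⟩, hw⟩ (by
      rintro x ⟨g, hg, rfl⟩ y hgx hxy
      -- `g⁻¹ y` is a neighbour of `w`
      have h1 : Adj P w (g.symm y) := by
        have h2 := adj_im (g⁻¹) (hH g⁻¹ (H.inv_mem hg)) hxy
        have h3 : (g⁻¹ : E (m + 1 + 1) ≃ₗᵢ[ℝ] E (m + 1 + 1)) (g w) = w := g.symm_apply_apply w
        rw [h3] at h2
        exact h2
      obtain ⟨q, hq, -, e⟩ := hnb v (g.symm y) hwv h1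
      refine ⟨g * q * h⁻¹, H.mul_mem (H.mul_mem hg hq) (H.inv_mem hh), ?_⟩
      change g (q (h.symm w)) = y
      rw [← hvw, h.symm_apply_apply, e, g.apply_symm_apply]) u hu
    obtain ⟨g, hg, e⟩ := hconn
    exact hnu g hg e
  obtain ⟨nv, ιv, hDv⟩ := hdat v hv
  obtain ⟨-, hsv, hnv0, hιv, hfixv⟩ := id hDv
  obtain ⟨s1, -, -, -, s5⟩ := hT (m + 1) P H v nv ιv hP hH hv hsv hnv0 hιv hfixv
  have hfigv := (hVF (m + 1) P v nv ιv hP hv hsv hnv0 hιv).1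
  -- the figure at `v` has at most `L` orbits
  have hfv : Few L (figH H v ιv) (fig v nv ιv P) := by
    by_cases hkL : L ≤ k
    · have hnot : ¬ Few (k - L) (figH H w ι') (fig w n' ι' P) := fun hf =>
        hbad (hMk (k - L) (by omega) (by omega) m (by omega) _ _ hfig t1 hf)
      refine hN1 (m + 1) P H v nv w n' ιv ι' L (k - L) hP hH hDv hDw hvw ?_ hnot
      have e : L + (k - L) + 1 = k + 1 := by omega
      rw [e]
      exact hFew
    · exact few_mono (by omega) (s5 k hFew ⟨w, hw, hvw⟩)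
  have hgv : Good (fig v nv ιv P) (figH H v ιv) := hML m (by omega) _ _ hfigv s1 hfv
  have key : ∀ hR : RegS (fig v nv ιv P) ∨ RegO (fig v nv ιv P), False := by
    intro hR
    have hptv := hN4 L N₁ hN9 hML L m (by omega) _ _ hfigv s1 hfv hR
    have hptw := hN5 (m + 1) P H v nv w n' ιv ι' L hP hH hDv hDw hwv hptv hpt1
    have hReg := hLL m (by omega) _ _ hfig t1 hptw
    refine hbad ⟨hReg, fun x y y' hy hy' => ?_⟩
    have hA2 := hF (m + 1) (fig w n' ι' P) hfig.1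
    obtain ⟨-, -, -, -, -, -, -, -, hA2, -⟩ := hA2
    exact htr y y' (hA2 x y hy).2.1 (hA2 x y' hy').2.1
  rcases hgv.1 with h | h | h
  · exact key (Or.inl h)
  · exact key (Or.inr h)
  · obtain ⟨g, hg⟩ := hLC (m + 1) P H v nv ιv (by omega) hP hH hv
      ⟨hsv, hnv0, hιv, hfixv, hgv⟩ h
    exact hN6 (m + 1) P H w n' v ι' g (by omega) hP hH hDw hwv hg hpt1

end Pool.Agent.T9h66.N1
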